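import Pool.Agent.W953.PD.Num
import Pool.Agent.W953.SR.Cmp
import Pool.Agent.W953.SP.Net

/-!
# 2-DPDA: `log n - 2 log log n - O(log log log n)` NOT gates are not enough for L

A computation in rounds asks tests without negations; every round depends on the answers of the
earlier rounds, and the `cost` is the maximum of the product of the numbers (number of tests of the
round) + 1, so that `t` tests one after the other (`t` NOT gates) have cost `2 ^ t`. The tests are
span programs over any fields, undirected switching networks (the monotone model of L, hence of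
the multihead deterministic finite automata) and comparator circuits.

There are a language `L` of a two-way deterministic pushdown automaton with one head and, for every
`n`, tags `t` of the `n` positions such that `L` is monotone in the `n` bits, but no computation in
rounds of cost `M` and polynomial size agrees with `L` on the inputs with between `k` and `k + U`
ones, if `M C log n (log log n) ^ 8 ≤ U ≤ n - k` and `M C (log n (log log n) ^ 8) ^ 2 ≤ n`.

The automaton evaluates monotone circuits whose wires are given by distances in unary.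
-/

set_option autoImplicit false

namespace Pool.Agent.Results.MP_5e85fc_lc.NotsOnSlices2DPDA

open Pool.Agent.W953.SP Pool.Agent.W953.SR Pool.Agent.H541R2

/-- the tests: monotone span programs over any fields, monotone undirected switching networks,
monotone comparator circuits -/
inductive Test (I : Type) : Type 1
  | span (P : MSP I)
  | net (N : Net I)
  | cmp (C : Cmp I)

/-- acceptance -/
def Test.Acc {I : Type} : Test I → (I → Bool) → Prop
  | .span P, x => P.Acc x
  | .net N, x => N.Acc x
  | .cmp C, x => C.val x = true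

/-- the number of rows, labelled edges, wires -/
def Test.size {I : Type} : Test I → ℕ
  | .span P => P.size
  | .net N => N.size
  | .cmp C => C.wires

/-- the tests with their acceptance and size -/
def tests (I : Type) : Tests (Test I) I where
  acc := Test.Acc
  size := Test.size

/-- the number of ones of an input -/
def ones {n : ℕ} (x : Fin n → Bool) : ℕ := (Finset.univ.filter (fun i => x i = true)).card

/-- the word with the tags `t` and the bits `x` is in `L` -/
def Word {Tag : Type} (L : Set (List (Tag × Bool))) {n : ℕ} (t : Fin n → Tag)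
    (x : Fin n → Bool) : Prop :=
  List.ofFn (fun i => (t i, x i)) ∈ L

/-- For some tags `t` of the positions, `L` is monotone in the `n` bits, and no computation in
rounds of cost at most `M`, in which the tests on every path have total size less than `s`, agrees
with `L` on the inputs with at least `k` and at most `k + U` ones, for any `k ≤ n - U`. -/
def HardOnSlices {Tag : Type} (L : Set (List (Tag × Bool))) (n U M s : ℕ) : Prop :=
  ∃ t : Fin n → Tag, (∀ x y : Fin n → Bool, x ≤ y → Word L t x → Word L t y) ∧
    ∀ k, k + U ≤ n → ∀ p : Prog (Test (Fin n)), p.cost ≤ M → p.load (tests _) < s →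
      ∃ x, k ≤ ones x ∧ ones x ≤ k + U ∧ ¬ (p.Acc (tests _) x ↔ Word L t x)

/-- the function `2 ^ 42 D (log D + 6) ^ 8`, for `D + 1` -/
def q (D : ℕ) : ℕ := 2 ^ 42 * (D + 1) * (Nat.log 2 (D + 1) + 6) ^ 8

/-- `m (log m + 1) ^ 8` -/
def near (m : ℕ) : ℕ := m * (Nat.log 2 m + 1) ^ 8

lemma tests_mono (I : Type) : Prog.Mono (tests I) := by
  intro P x y hxy h
  cases P with
  | span P => exact MSP.Acc.mono hxy h
  | net N => exact Pool.Agent.W953.SP.Net.Acc.mono hxy h
  | cmp C => exact C.val_mono hxy h

lemma tests_rank (I : Type) : RankTests (tests I) := by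
  intro P
  cases P with
  | span P =>
    refine ⟨P.F, inferInstance, fun X Y _ _ _ _ A α β U _ hU hβ m hm => ?_⟩
    exact P.rank_le A α β U hU hβ m hm
  | net N =>
    refine ⟨ℚ, inferInstance, fun X Y _ _ _ _ A α β U _ hU hβ m hm => ?_⟩
    exact (N.toMSP ℚ).rank_le A α β U (fun x hx => (N.toMSP_acc ℚ _).mpr (hU x hx))
      (fun y h => hβ y ((N.toMSP_acc ℚ _).mp h)) m hm
  | cmp C => exact wireTests_rank I C

/-- One language of a two-way deterministic pushdown automaton with one head. (1) For `M ≥ 1`,
`5 M q(D) ≤ U ≤ n` and `45 M q(D) ^ 2 ≤ n` it is hard for cost `M` and total size less than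
`4 ^ (D + 1)`. (2) For every `c` there is `C` such that it is hard for cost `M ≥ 1` and total size
less than `n ^ c` if `M C near(log n + 1) ≤ U ≤ n` and `M C near(log n + 1) ^ 2 ≤ n`. -/
theorem result : ∃ (Tag : Type) (_ : Fintype Tag) (L : Set (List (Tag × Bool))), TwoDPDA L ∧
    (∀ D M U n : ℕ, 1 ≤ M → 5 * M * q D ≤ U → U ≤ n → 45 * M * q D ^ 2 ≤ n →
      HardOnSlices L n U M (4 ^ (D + 1))) ∧
    ∀ c : ℕ, ∃ C : ℕ, ∀ M U n : ℕ, 1 ≤ M → M * C * near (Nat.log 2 n + 1) ≤ U → U ≤ n →
      M * C * near (Nat.log 2 n + 1) ^ 2 ≤ n → HardOnSlices L n U M (n ^ c) := by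
  have main : ∀ D M U n : ℕ, 1 ≤ M → 5 * M * q D ≤ U → U ≤ n → 45 * M * q D ^ 2 ≤ n →
      HardOnSlices Pool.Agent.H257R4.TP.LL n U M (4 ^ (D + 1)) := by
    intro D M U n hM hU hUn hn
    obtain ⟨t, h1, h2⟩ := Pool.Agent.W953.PD.pda_hard.{1} D M U n hM hU hUn hn
    refine ⟨t, fun x y hxy hx => h1 x y (fun i hi => ?_) hx, fun k hk p hcost hload =>
      h2 _ (tests (Fin n)) (tests_rank _) (tests_mono _) k hk p hcost hload⟩
    have := hxy i
    rw [hi] at this
    exact top_le_iff.mp this
  refine ⟨Pool.Agent.H257R4.TP.Tag, inferInstance, Pool.Agent.H257R4.TP.LL,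
    ⟨Pool.Agent.H257R4.TP.St, Pool.Agent.H257R4.TP.Sy, inferInstance, inferInstance,
      Pool.Agent.H257R4.TP.del, .q0, {.acc}, fun w => Iff.rfl⟩, main, fun c => ?_⟩
  obtain ⟨C, hC⟩ := Pool.Agent.W953.PD.num_det c
  refine ⟨C, fun M U n hM hU hUn hn => ?_⟩
  obtain ⟨D, d1, d2, d3⟩ := hC n
  obtain ⟨t, h1, h2⟩ := main D M U n hM (by
      refine le_trans ?_ hU
      calc 5 * M * q D = M * (5 * W953.PT.vno D) := by
            show 5 * M * W953.PT.vno D = _
            ring
        _ ≤ M * (C * W953.PD.nl (Nat.log 2 n + 1)) := Nat.mul_le_mul_left _ d2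
        _ = M * C * near (Nat.log 2 n + 1) := by
            show _ = M * C * W953.PD.nl (Nat.log 2 n + 1)
            ring) hUn (by
      refine le_trans ?_ hn
      calc 45 * M * q D ^ 2 = M * (45 * W953.PT.vno D ^ 2) := by
            show 45 * M * W953.PT.vno D ^ 2 = _
            ring
        _ ≤ M * (C * W953.PD.nl (Nat.log 2 n + 1) ^ 2) := Nat.mul_le_mul_left _ d3
        _ = M * C * near (Nat.log 2 n + 1) ^ 2 := by
            show _ = M * C * W953.PD.nl (Nat.log 2 n + 1) ^ 2
            ring)
  exact ⟨t, h1, fun k hk p hcost hload => h2 k hk p hcost (by omega)⟩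

end Pool.Agent.Results.MP_5e85fc_lc.NotsOnSlices2DPDA
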