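import Pool.Agent.W997.GS.Final

/-!
# Stack height times space, in all modes of acceptance

We evaluate the unrolled De Bruijn graph: the nodes of height `j ≤ h` are the pairs of a word and a
letter, the children of a node are the nodes of the next smaller height whose words arise by
shifting, and every inner node has a table indexed by the tuples of values of its children.  With
`N` the number of variables we show for all heights `1 ≤ h ≤ 2 ^ p`, where `2 ^ p ≥ N ^ c`:

* for every `r ≥ 1` there are deterministic programs with a stack of height `h / r` and of log size
  `8 * r * log N` which evaluate the root and read only `N ^ δ` different variables;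
* but if a program with a stack of height `τ`, with any branching and with any mode of acceptance
  (deterministic, nondeterministic, alternating, probabilistic, counting, ...) is right on slightly
  more than half of the inputs and `(τ + 1)` times its log size is at most `c * h * log N`, then its
  reachable configurations read almost all variables, on average.

So for programs which read few variables the product of stack height and space needed is
`Θ(h log N)`, in every mode; nonuniform multihead pushdown automata (log size `O(log N)`) need the
stack height `Θ(h)`, and nonuniform multihead finite automata, even alternating ones, would need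
the log size `Θ(h log N)`, up to `N ^ c`.

Proof idea.  A configuration on a computation which evaluates the root determines the values of the
nodes which are alive up to few possibilities: they can be found by exploring all configurations
which are reachable from it, because on the fixed computation the parent of a node which is alive is
evaluated before the node itself, so that the exploration never gets stuck at an unknown value
before a new one becomes known.  The combinatorial part is the one of the deterministic law: in the
last step in which some path from the root to a leaf is free of live nodes, all `h` branches off this
path are blocked by groups of siblings which are almost completely alive.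
-/

set_option autoImplicit false

namespace Pool.Agent.Results.MP_5e85fc_lc.StackHeightLaw

open Finset
open Pool.Agent.W997.DB Pool.Agent.W997.GS

/-- For every `δ > 0` there are `D`, `ℓ₁`, `c > 0` and `p₀` such that for all `p ≥ p₀` and all
`1 ≤ h ≤ 2 ^ p`, with `ℓ = ℓ₁ * p`, alphabet `Fin (2 ^ ℓ)` and `N` the number of variables of the
unrolled De Bruijn graph of height `h` over words of length `2 * p + 1` (then `N ^ c ≤ 2 ^ p`), the
lowest bit of the value of every root

* is computed, for every `r ≥ 1`, by a deterministic program with a stack which has log size at
  most `8 * r * log N` and, on every input, stack height at most `h / r`, and which stops after at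
  most `D ^ (h + 2)` steps and reads at most `N ^ δ` different variables,
* but if a program with a stack, with any branching and any mode of acceptance, has stack height at
  most `τ` and `(τ + 1)` times its log size is at most `c * h * log N`, and it gives the right
  answer on a fraction of at least `1 / 2 + N ^ (-c)` of the inputs, then in its reachable
  configurations on average at least `N ^ (1 - δ)` different variables are read. -/
theorem result : ∀ δ : ℝ, 0 < δ → ∃ D ℓ₁ : ℕ, 2 ≤ D ∧ 1 ≤ ℓ₁ ∧ ∃ c : ℝ, 0 < c ∧ ∃ p₀ : ℕ,
    ∀ p : ℕ, p₀ ≤ p → ∀ h : ℕ, 1 ≤ h → h ≤ 2 ^ p → ∀ ℓ : ℕ, ℓ = ℓ₁ * p → ∀ N : ℝ,
    N = Fintype.card (Var D (2 * p) h (2 ^ ℓ)) → N ^ c ≤ 2 ^ p ∧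
      ∀ (g : Word D (2 * p)) (i : Fin D) (f : Input D (2 * p) h (2 ^ ℓ) → Bool),
      f = rootBit g i →
      (∀ r : ℕ, 1 ≤ r → ByStack f (8 * r * Real.log N) (h / r) (D ^ (h + 2)) (N ^ δ)) ∧
      HardForAllModes f (c * h * Real.log N) (N ^ (-c)) (N ^ (1 - δ)) :=
  fun δ hδ => stack_stmt δ hδ

end Pool.Agent.Results.MP_5e85fc_lc.StackHeightLaw
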